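import Pool.Agent.Helper20.HP.Data2

/-!
# HOPF-F67: smoothness, symmetry and positivity of the metrics `g3` and `g2`
-/

open Filter Metric Module Set
open scoped Topology ContDiff RealInnerProductSpace Manifold Quaternion

namespace Pool.Agent.Helper74.HP
open Pool.Agent.Helper20.PC Pool.Agent.Helper20.HP

/-! ### smoothness of the data on `ℝ³` -/

theorem contDiff_coord {n : ℕ∞ω} (i : Fin 3) : ContDiff ℝ n (fun x : E3 => x i) :=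
  contDiff_euclidean.1 contDiff_id i

theorem contDiff_mk3 {D : Type*} [NormedAddCommGroup D] [NormedSpace ℝ D] {n : ℕ∞ω} {s : Set D}
    {f g h : D → ℝ} (hf : ContDiffOn ℝ n f s) (hg : ContDiffOn ℝ n g s) (hh : ContDiffOn ℝ n h s) :
    ContDiffOn ℝ n (fun x => (!₂[f x, g x, h x] : E3)) s := by
  rw [contDiffOn_euclidean]
  intro i
  fin_cases i
  · simpa using hf
  · simpa using hg
  · simpa using hh

section
variable {D : Type*} [NormedAddCommGroup D] [NormedSpace ℝ D] {n : ℕ∞ω} {s : Set D}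

theorem coord_on {f : D → E3} (hf : ContDiffOn ℝ n f s) (i : Fin 3) :
    ContDiffOn ℝ n (fun z => f z i) s :=
  (contDiff_coord i).comp_contDiffOn hf

theorem cr_on {f g : D → E3} (hf : ContDiffOn ℝ n f s) (hg : ContDiffOn ℝ n g s) :
    ContDiffOn ℝ n (fun z => cr (f z) (g z)) s := by
  have h := fun i => coord_on hf i
  have k := fun i => coord_on hg i
  unfold cr
  exact contDiff_mk3 (((h 1).mul (k 2)).sub ((h 2).mul (k 1)))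
    (((h 2).mul (k 0)).sub ((h 0).mul (k 2))) (((h 0).mul (k 1)).sub ((h 1).mul (k 0)))

theorem Hb_on {f g : D → E3} (hf : ContDiffOn ℝ n f s) (hg : ContDiffOn ℝ n g s) :
    ContDiffOn ℝ n (fun z => Hb (f z) (g z)) s := by
  have h := fun i => coord_on hf i
  have k := fun i => coord_on hg i
  unfold Hb HbG
  exact ((h 0).mul ((k 1).add (k 2))).add (((h 1).add (h 2)).mul (k 0))

theorem Hv_on {f : D → E3} (hf : ContDiffOn ℝ n f s) : ContDiffOn ℝ n (fun z => Hv (f z)) s := by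
  have h := fun i => coord_on hf i
  unfold Hv
  exact contDiff_mk3 ((h 1).add (h 2)) (h 0) (h 0)

theorem sg_on {κ : ℝ} {f : D → E3} (hf : ContDiffOn ℝ n f s) :
    ContDiffOn ℝ n (fun z => sg κ (f z)) s := by
  unfold sg
  exact contDiffOn_const.sub (contDiffOn_const.mul (Hb_on hf hf))

theorem rr_on {ε : ℝ} {f : D → E3} (hf : ContDiffOn ℝ n f s) :
    ContDiffOn ℝ n (fun z => rr ε (f z)) s := by
  unfold rr
  exact contDiffOn_const.add (contDiffOn_const.mul (coord_on hf 2))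

theorem Sb_on {κ ε T : ℝ} {f g k : D → E3} (hf : ContDiffOn ℝ n f s) (hg : ContDiffOn ℝ n g s)
    (hk : ContDiffOn ℝ n k s) : ContDiffOn ℝ n (fun z => Sb κ ε T (f z) (g z) (k z)) s := by
  have h0 := coord_on hf 0
  have h1 := coord_on hf 1
  have h2 := coord_on hf 2
  have g0 := coord_on hg 0
  have g1 := coord_on hg 1
  have g2 := coord_on hg 2
  have k0 := coord_on hk 0
  have k1 := coord_on hk 1
  have k2 := coord_on hk 2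
  simp only [Sb, SbG, dotG, HbG, FbG, PhG, smul_eq_mul]
  fun_prop

theorem inner_on {f g : D → E3} (hf : ContDiffOn ℝ n f s) (hg : ContDiffOn ℝ n g s) :
    ContDiffOn ℝ n (fun z => (⟪f z, g z⟫ : ℝ)) s := hf.inner ℝ hg

theorem Mf_on {κ ε T δ : ℝ} {f g k : D → E3} (hf : ContDiffOn ℝ n f s) (hg : ContDiffOn ℝ n g s)
    (hk : ContDiffOn ℝ n k s) : ContDiffOn ℝ n (fun z => Mf κ ε T δ (f z) (g z) (k z)) s := by
  have h1 : ∀ z, Mf κ ε T δ (f z) (g z) (k z)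
      = δ ^ 2 * ⟪g z, k z⟫ - δ ^ 4 * Sb κ ε T (f z) (g z) (k z) := fun z => by
    simp [Mf, inL_apply]
  simp only [h1]
  exact (contDiffOn_const.mul (inner_on hg hk)).sub (contDiffOn_const.mul (Sb_on hf hg hk))

theorem Av_on {κ ε : ℝ} {f g : D → E3} (hf : ContDiffOn ℝ n f s) (hg : ContDiffOn ℝ n g s)
    (hsg : ∀ z ∈ s, sg κ (f z) ≠ 0) : ContDiffOn ℝ n (fun z => Av κ ε (f z) (g z)) s := by
  unfold Av
  have h1 : ContDiffOn ℝ n (fun z => rr ε (f z) / sg κ (f z) - 1) s :=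
    ((rr_on hf).div (sg_on hf) hsg).sub contDiffOn_const
  have h2 : ContDiffOn ℝ n (fun z => 2 * κ / sg κ (f z) * ⟪cr (f z) (Hv (f z)), g z⟫) s :=
    ((contDiffOn_const).div (sg_on hf) hsg).mul (inner_on (cr_on hf (Hv_on hf)) hg)
  exact (h1.smul (cr_on hf hg)).add (h2.smul hf)

end

theorem sg_pos {κ : ℝ} (hκ : |κ| ≤ 1/10) {x : E3} (hx : ‖x‖ = 1) : 0 < sg κ x := by
  have h1 : x 0 ^ 2 + x 1 ^ 2 + x 2 ^ 2 = 1 := by
    have := EuclideanSpace.real_norm_sq_eq x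
    rw [hx, Fin.sum_univ_three] at this
    linarith
  have h2 : |Hb x x| ≤ 2 := by
    simp only [Hb, HbG]
    rw [abs_le]
    constructor <;> nlinarith [sq_nonneg (x 0 - x 1), sq_nonneg (x 0 - x 2), sq_nonneg (x 0 + x 1),
      sq_nonneg (x 0 + x 2), sq_nonneg (x 1), sq_nonneg (x 2)]
  have h3 : |κ * Hb x x| ≤ 1/10 * 2 := by
    rw [abs_mul]
    exact mul_le_mul hκ h2 (abs_nonneg _) (by norm_num)
  have h4 := (abs_le.1 h3).2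
  unfold sg
  linarith

theorem Mf_symm (κ ε T δ : ℝ) (x a b : E3) : Mf κ ε T δ x a b = Mf κ ε T δ x b a := by
  have h1 : Sb κ ε T x a b = Sb κ ε T x b a := by
    simp only [Sb, SbG, dotG, HbG, FbG, PhG, smul_eq_mul]
    ring
  simp [Mf, inL_apply, h1, real_inner_comm]

theorem norm_coe (p : sphere (0 : E3) 1) : ‖(p : E3)‖ = 1 := norm_eq_of_mem_sphere p

/-! ### `g3` -/

theorem g3_apply (κ ε T δ : ℝ) (p : sphere (0 : E3) 1 × sphere (0 : ℍ[ℝ]) 1) (u v : E3 × ℍ[ℝ]) :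
    g3 κ ε T δ p u v = ((sg κ p.1) ^ 2)⁻¹ * ⟪u.1, v.1⟫
      + Mf κ ε T δ p.1 ((2 : ℝ) • vecL (u.2 * (p.2 : ℍ[ℝ])⁻¹) + Av κ ε p.1 u.1)
        ((2 : ℝ) • vecL (v.2 * (p.2 : ℍ[ℝ])⁻¹) + Av κ ε p.1 v.1) := by
  simp [g3, hhat, W3, inL_apply, AvL_apply]

/-- the metric `g3` as a function on the ambient space -/
noncomputable def G3 (κ ε T δ : ℝ) (z : E3 × ℍ[ℝ]) : (E3 × ℍ[ℝ]) →L[ℝ] (E3 × ℍ[ℝ]) →L[ℝ] ℝ :=
  (hhat κ z.1).bilinearComp (ContinuousLinearMap.fst ℝ E3 ℍ[ℝ]) (ContinuousLinearMap.fst ℝ E3 ℍ[ℝ])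
    + (Mf κ ε T δ z.1).bilinearComp (W3 κ ε z.1 z.2) (W3 κ ε z.1 z.2)

theorem G3_apply (κ ε T δ : ℝ) (z u v : E3 × ℍ[ℝ]) :
    G3 κ ε T δ z u v = ((sg κ z.1) ^ 2)⁻¹ * ⟪u.1, v.1⟫
      + Mf κ ε T δ z.1 ((2 : ℝ) • vecL (u.2 * (z.2)⁻¹) + Av κ ε z.1 u.1)
        ((2 : ℝ) • vecL (v.2 * (z.2)⁻¹) + Av κ ε z.1 v.1) := by
  simp [G3, hhat, W3, inL_apply, AvL_apply]

theorem G3_on (κ ε T δ : ℝ) :
    ContDiffOn ℝ ∞ (G3 κ ε T δ) {z : E3 × ℍ[ℝ] | sg κ z.1 ≠ 0 ∧ z.2 ≠ 0} := by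
  rw [contDiffOn_clm_apply]
  intro u
  rw [contDiffOn_clm_apply]
  intro v
  simp only [G3_apply]
  have h1 : ContDiffOn ℝ ∞ (fun z : E3 × ℍ[ℝ] => z.1) {z : E3 × ℍ[ℝ] | sg κ z.1 ≠ 0 ∧ z.2 ≠ 0} :=
    contDiff_fst.contDiffOn
  have h2 : ContDiffOn ℝ ∞ (fun z : E3 × ℍ[ℝ] => (z.2)⁻¹)
      {z : E3 × ℍ[ℝ] | sg κ z.1 ≠ 0 ∧ z.2 ≠ 0} := by
    intro z hz
    have h0 : ContDiffAt ℝ ∞ Ring.inverse (z.2 : ℍ[ℝ]) := contDiffAt_ringInverse ℝ (Units.mk0 z.2 hz.2)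
    rw [Ring.inverse_eq_inv'] at h0
    exact (h0.comp z contDiffAt_snd).contDiffWithinAt
  have h3 : ∀ w : E3 × ℍ[ℝ], ContDiffOn ℝ ∞
      (fun z : E3 × ℍ[ℝ] => (2 : ℝ) • vecL (w.2 * (z.2)⁻¹) + Av κ ε z.1 w.1)
      {z : E3 × ℍ[ℝ] | sg κ z.1 ≠ 0 ∧ z.2 ≠ 0} := by
    intro w
    refine ContDiffOn.add ?_ (Av_on h1 contDiffOn_const fun z hz => hz.1)
    have h4 : ContDiffOn ℝ ∞ (fun z : E3 × ℍ[ℝ] => vecL (w.2 * (z.2)⁻¹))
        {z : E3 × ℍ[ℝ] | sg κ z.1 ≠ 0 ∧ z.2 ≠ 0} :=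
      vecL.contDiff.comp_contDiffOn (contDiffOn_const.mul h2)
    exact (contDiffOn_const (c := (2 : ℝ))).smul h4
  refine ContDiffOn.add (ContDiffOn.mul ?_ contDiffOn_const) (Mf_on h1 (h3 u) (h3 v))
  exact ((sg_on h1).pow 2).inv fun z hz => pow_ne_zero _ hz.1

theorem coe_prod_contMDiff3 : ContMDiff ((𝓡 2).prod (𝓡 3)) 𝓘(ℝ, E3 × ℍ[ℝ]) ∞
    (fun p : sphere (0 : E3) 1 × sphere (0 : ℍ[ℝ]) 1 => (((p.1 : E3), (p.2 : ℍ[ℝ])) : E3 × ℍ[ℝ])) := by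
  have h1 : ContMDiff ((𝓡 2).prod (𝓡 3)) 𝓘(ℝ, E3) ∞
      (fun p : sphere (0 : E3) 1 × sphere (0 : ℍ[ℝ]) 1 => (p.1 : E3)) :=
    (contMDiff_coe_sphere (E := E3) (n := 2)).comp contMDiff_fst
  have h2 : ContMDiff ((𝓡 2).prod (𝓡 3)) 𝓘(ℝ, ℍ[ℝ]) ∞
      (fun p : sphere (0 : E3) 1 × sphere (0 : ℍ[ℝ]) 1 => (p.2 : ℍ[ℝ])) :=
    (contMDiff_coe_sphere (E := ℍ[ℝ]) (n := 3)).comp contMDiff_snd
  exact h1.prodMk_space h2

theorem coe_prod_contMDiff2 : ContMDiff ((𝓡 2).prod (𝓡 2)) 𝓘(ℝ, E3 × E3) ∞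
    (fun p : sphere (0 : E3) 1 × sphere (0 : E3) 1 => (((p.1 : E3), (p.2 : E3)) : E3 × E3)) := by
  have h1 : ContMDiff ((𝓡 2).prod (𝓡 2)) 𝓘(ℝ, E3) ∞
      (fun p : sphere (0 : E3) 1 × sphere (0 : E3) 1 => (p.1 : E3)) :=
    (contMDiff_coe_sphere (E := E3) (n := 2)).comp contMDiff_fst
  have h2 : ContMDiff ((𝓡 2).prod (𝓡 2)) 𝓘(ℝ, E3) ∞
      (fun p : sphere (0 : E3) 1 × sphere (0 : E3) 1 => (p.2 : E3)) :=
    (contMDiff_coe_sphere (E := E3) (n := 2)).comp contMDiff_snd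
  exact h1.prodMk_space h2

theorem sg_set_open (κ : ℝ) : IsOpen {x : E3 | sg κ x ≠ 0} := by
  have h : Continuous (fun x : E3 => sg κ x) := by
    have := (sg_on (κ := κ) (n := ∞) (s := univ) (f := fun x : E3 => x) contDiffOn_id)
    exact (contDiffOn_univ.1 this).continuous
  exact isOpen_ne_fun h continuous_const

theorem re_mul_inv (q p : ℍ[ℝ]) (hq : ‖q‖ = 1) : (p * q⁻¹).re = ⟪q, p⟫ := by
  have h1 : q⁻¹ = star q := by
    have h2 : q * star q = 1 := by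
      rw [Quaternion.self_mul_star, Quaternion.normSq_eq_norm_mul_self, hq]
      simp
    exact inv_eq_of_mul_eq_one_right h2
  rw [h1, real_inner_comm]
  rw [Quaternion.inner_def]

theorem vecL_eq_zero {q : ℍ[ℝ]} (h : vecL q = 0) (h0 : q.re = 0) : q = 0 := by
  have h1 := fun i => congrArg (fun v : E3 => v i) h
  have e1 : q.imI = 0 := by simpa [vecL_apply] using h1 0
  have e2 : q.imJ = 0 := by simpa [vecL_apply] using h1 1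
  have e3 : q.imK = 0 := by simpa [vecL_apply] using h1 2
  ext <;> simp [h0, e1, e2, e3]

-- F6 : smoothness, symmetry and positivity of g3
theorem g3_metric {κ ε T δ : ℝ} (hκ : |κ| ≤ 1/10) (hM : ∀ y : E3, ‖y‖ = 1 → ∀ a, a ≠ 0 → 0 < Mf κ ε T δ y a a) :
    ContMDiff ((𝓡 2).prod (𝓡 3)) 𝓘(ℝ, (E3 × ℍ[ℝ]) →L[ℝ] (E3 × ℍ[ℝ]) →L[ℝ] ℝ) ∞ (g3 κ ε T δ) ∧
    (∀ p u v, g3 κ ε T δ p u v = g3 κ ε T δ p v u) ∧
    (∀ (p : sphere (0 : E3) 1 × sphere (0 : ℍ[ℝ]) 1) (u : E3 × ℍ[ℝ]), ⟪(p.1 : E3), u.1⟫ = 0 →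
      ⟪(p.2 : ℍ[ℝ]), u.2⟫ = 0 → u ≠ 0 → 0 < g3 κ ε T δ p u u) := by
  refine ⟨?_, ?_, ?_⟩
  · have h1 : IsOpen {z : E3 × ℍ[ℝ] | sg κ z.1 ≠ 0 ∧ z.2 ≠ 0} :=
      ((sg_set_open κ).preimage continuous_fst).inter (isOpen_ne.preimage continuous_snd)
    intro p
    have hp : ((p.1 : E3), (p.2 : ℍ[ℝ])) ∈ {z : E3 × ℍ[ℝ] | sg κ z.1 ≠ 0 ∧ z.2 ≠ 0} :=
      ⟨(sg_pos hκ (norm_coe p.1)).ne', ne_zero_of_mem_unit_sphere p.2⟩
    have h2 : ContDiffAt ℝ ∞ (G3 κ ε T δ) ((p.1 : E3), (p.2 : ℍ[ℝ])) :=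
      (G3_on κ ε T δ).contDiffAt (h1.mem_nhds hp)
    have h3 := h2.contMDiffAt.comp p (coe_prod_contMDiff3 p)
    exact h3
  · intro p u v
    rw [g3_apply, g3_apply, Mf_symm, real_inner_comm]
  · intro p u h1 h2 hu
    rw [g3_apply]
    have hs := sg_pos hκ (norm_coe p.1)
    have hM' : ∀ a, 0 ≤ Mf κ ε T δ (p.1 : E3) a a := by
      intro a
      by_cases ha : a = 0
      · simp [ha]
      · exact (hM _ (norm_coe p.1) a ha).le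
    by_cases hu1 : u.1 = 0
    · have hu2 : u.2 ≠ 0 := fun h => hu (Prod.ext hu1 h)
      have hq : ‖(p.2 : ℍ[ℝ])‖ = 1 := norm_eq_of_mem_sphere p.2
      have hne : (2 : ℝ) • vecL (u.2 * (p.2 : ℍ[ℝ])⁻¹) + Av κ ε p.1 u.1 ≠ 0 := by
        intro h
        have hA : Av κ ε (p.1 : E3) u.1 = 0 := by
          rw [hu1, ← AvL_apply, map_zero]
        rw [hA, add_zero] at h
        have h3 : vecL (u.2 * (p.2 : ℍ[ℝ])⁻¹) = 0 := by
          rcases smul_eq_zero.1 h with h | h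
          · norm_num at h
          · exact h
        have h4 : u.2 * (p.2 : ℍ[ℝ])⁻¹ = 0 := vecL_eq_zero h3 (by rw [re_mul_inv _ _ hq, h2])
        rcases mul_eq_zero.1 h4 with h | h
        · exact hu2 h
        · exact ne_zero_of_mem_unit_sphere p.2 (inv_eq_zero.1 h)
      have h5 := hM _ (norm_coe p.1) _ hne
      have h6 : (((sg κ p.1) ^ 2)⁻¹ : ℝ) * ⟪u.1, u.1⟫ = 0 := by simp [hu1]
      rw [h6, zero_add]
      exact h5
    · have h3 : 0 < (((sg κ p.1) ^ 2)⁻¹ : ℝ) * ⟪u.1, u.1⟫ :=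
        mul_pos (inv_pos.2 (pow_pos hs 2)) (real_inner_self_pos.2 hu1)
      exact add_pos_of_pos_of_nonneg h3 (hM' _)

/-! ### `g2` -/

theorem g2_apply (κ ε T δ : ℝ) (p : sphere (0 : E3) 1 × sphere (0 : E3) 1) (u v : E3 × E3) :
    g2 κ ε T δ p u v = ((sg κ p.1) ^ 2)⁻¹ * ⟪u.1, v.1⟫
      + Mf κ ε T δ p.1 (cr p.2 u.2 + Av κ ε p.1 u.1) (cr p.2 v.2 + Av κ ε p.1 v.1)
      - (Mf κ ε T δ p.1 p.2 p.2)⁻¹ * (Mf κ ε T δ p.1 p.2 (cr p.2 u.2 + Av κ ε p.1 u.1) *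
        Mf κ ε T δ p.1 p.2 (cr p.2 v.2 + Av κ ε p.1 v.1)) := by
  simp [g2, hhat, W2, inL_apply, AvL_apply]
  ring

/-- the metric `g2` as a function on the ambient space -/
noncomputable def G2 (κ ε T δ : ℝ) (z : E3 × E3) : (E3 × E3) →L[ℝ] (E3 × E3) →L[ℝ] ℝ :=
  (hhat κ z.1).bilinearComp (ContinuousLinearMap.fst ℝ E3 E3) (ContinuousLinearMap.fst ℝ E3 E3)
    + (Mf κ ε T δ z.1).bilinearComp (W2 κ ε z.1 z.2) (W2 κ ε z.1 z.2)
    - (Mf κ ε T δ z.1 z.2 z.2)⁻¹ • (Mf κ ε T δ z.1 z.2 ∘L W2 κ ε z.1 z.2).smulRight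
        (Mf κ ε T δ z.1 z.2 ∘L W2 κ ε z.1 z.2)

theorem G2_apply (κ ε T δ : ℝ) (z u v : E3 × E3) :
    G2 κ ε T δ z u v = ((sg κ z.1) ^ 2)⁻¹ * ⟪u.1, v.1⟫
      + Mf κ ε T δ z.1 (cr z.2 u.2 + Av κ ε z.1 u.1) (cr z.2 v.2 + Av κ ε z.1 v.1)
      - (Mf κ ε T δ z.1 z.2 z.2)⁻¹ * (Mf κ ε T δ z.1 z.2 (cr z.2 u.2 + Av κ ε z.1 u.1) *
        Mf κ ε T δ z.1 z.2 (cr z.2 v.2 + Av κ ε z.1 v.1)) := by
  simp [G2, hhat, W2, inL_apply, AvL_apply]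
  ring

theorem G2_on (κ ε T δ : ℝ) :
    ContDiffOn ℝ ∞ (G2 κ ε T δ) {z : E3 × E3 | sg κ z.1 ≠ 0 ∧ Mf κ ε T δ z.1 z.2 z.2 ≠ 0} := by
  rw [contDiffOn_clm_apply]
  intro u
  rw [contDiffOn_clm_apply]
  intro v
  simp only [G2_apply]
  have h1 : ContDiffOn ℝ ∞ (fun z : E3 × E3 => z.1)
      {z : E3 × E3 | sg κ z.1 ≠ 0 ∧ Mf κ ε T δ z.1 z.2 z.2 ≠ 0} := contDiff_fst.contDiffOn
  have h2 : ContDiffOn ℝ ∞ (fun z : E3 × E3 => z.2)
      {z : E3 × E3 | sg κ z.1 ≠ 0 ∧ Mf κ ε T δ z.1 z.2 z.2 ≠ 0} := contDiff_snd.contDiffOn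
  have h3 : ∀ w : E3 × E3, ContDiffOn ℝ ∞
      (fun z : E3 × E3 => cr z.2 w.2 + Av κ ε z.1 w.1)
      {z : E3 × E3 | sg κ z.1 ≠ 0 ∧ Mf κ ε T δ z.1 z.2 z.2 ≠ 0} := by
    intro w
    exact ContDiffOn.add (cr_on h2 contDiffOn_const) (Av_on h1 contDiffOn_const fun z hz => hz.1)
  refine ContDiffOn.sub (ContDiffOn.add (ContDiffOn.mul ?_ contDiffOn_const)
    (Mf_on h1 (h3 u) (h3 v))) (ContDiffOn.mul ?_ ((Mf_on h1 h2 (h3 u)).mul (Mf_on h1 h2 (h3 v))))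
  · exact ((sg_on h1).pow 2).inv fun z hz => pow_ne_zero _ hz.1
  · exact (Mf_on h1 h2 h2).inv fun z hz => hz.2

theorem inner_cr_left (a b : E3) : (⟪a, cr a b⟫ : ℝ) = 0 := by
  simp [cr, PiLp.inner_apply, Fin.sum_univ_three]
  ring

theorem norm_cr_sq (a b : E3) : (⟪cr a b, cr a b⟫ : ℝ) = ⟪a, a⟫ * ⟪b, b⟫ - ⟪a, b⟫ ^ 2 := by
  have h : ∀ u v : E3, (⟪u, v⟫ : ℝ) = u 0 * v 0 + u 1 * v 1 + u 2 * v 2 := fun u v => by
    simp only [PiLp.inner_apply, Fin.sum_univ_three, RCLike.inner_apply, conj_trivial]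
    ring
  simp only [h]
  simp [cr]
  ring

-- F7 : smoothness, symmetry and positivity of g2
theorem g2_metric {κ ε T δ : ℝ} (hκ : |κ| ≤ 1/10) (hM : ∀ y : E3, ‖y‖ = 1 → ∀ a, a ≠ 0 → 0 < Mf κ ε T δ y a a) :
    ContMDiff ((𝓡 2).prod (𝓡 2)) 𝓘(ℝ, (E3 × E3) →L[ℝ] (E3 × E3) →L[ℝ] ℝ) ∞ (g2 κ ε T δ) ∧
    (∀ p u v, g2 κ ε T δ p u v = g2 κ ε T δ p v u) ∧
    (∀ (p : sphere (0 : E3) 1 × sphere (0 : E3) 1) (u : E3 × E3), ⟪(p.1 : E3), u.1⟫ = 0 →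
      ⟪(p.2 : E3), u.2⟫ = 0 → u ≠ 0 → 0 < g2 κ ε T δ p u u) := by
  refine ⟨?_, ?_, ?_⟩
  · have hc : Continuous fun z : E3 × E3 => Mf κ ε T δ z.1 z.2 z.2 := by
      have := Mf_on (κ := κ) (ε := ε) (T := T) (δ := δ) (n := ∞) (s := univ)
        (f := fun z : E3 × E3 => z.1) (g := fun z : E3 × E3 => z.2) (k := fun z : E3 × E3 => z.2)
        contDiff_fst.contDiffOn contDiff_snd.contDiffOn contDiff_snd.contDiffOn
      exact (contDiffOn_univ.1 this).continuous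
    have h1 : IsOpen {z : E3 × E3 | sg κ z.1 ≠ 0 ∧ Mf κ ε T δ z.1 z.2 z.2 ≠ 0} :=
      ((sg_set_open κ).preimage continuous_fst).inter (isOpen_ne_fun hc continuous_const)
    intro p
    have hp : ((p.1 : E3), (p.2 : E3)) ∈
        {z : E3 × E3 | sg κ z.1 ≠ 0 ∧ Mf κ ε T δ z.1 z.2 z.2 ≠ 0} :=
      ⟨(sg_pos hκ (norm_coe p.1)).ne',
        (hM _ (norm_coe p.1) _ (ne_zero_of_mem_unit_sphere p.2)).ne'⟩
    have h2 : ContDiffAt ℝ ∞ (G2 κ ε T δ) ((p.1 : E3), (p.2 : E3)) :=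
      (G2_on κ ε T δ).contDiffAt (h1.mem_nhds hp)
    have h3 := h2.contMDiffAt.comp p (coe_prod_contMDiff2 p)
    exact h3
  · intro p u v
    rw [g2_apply, g2_apply, Mf_symm κ ε T δ p.1 (cr p.2 u.2 + Av κ ε p.1 u.1)
      (cr p.2 v.2 + Av κ ε p.1 v.1), real_inner_comm]
    ring
  · intro p u h1 h2 hu
    rw [g2_apply]
    have hs := sg_pos hκ (norm_coe p.1)
    set W : E3 := cr p.2 u.2 + Av κ ε p.1 u.1 with hW
    set y : E3 := (p.2 : E3) with hy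
    set M := Mf κ ε T δ (p.1 : E3) with hMdef
    have hMy : 0 < M y y := hM _ (norm_coe p.1) _ (ne_zero_of_mem_unit_sphere p.2)
    have hM' : ∀ a, 0 ≤ M a a := by
      intro a
      by_cases ha : a = 0
      · simp [ha]
      · exact (hM _ (norm_coe p.1) a ha).le
    -- the projection of W
    have hproj : M (W - ((M y y)⁻¹ * M y W) • y) (W - ((M y y)⁻¹ * M y W) • y)
        = M W W - (M y y)⁻¹ * (M y W * M y W) := by
      have hsym : M W y = M y W := Mf_symm κ ε T δ _ _ _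
      simp only [map_sub, map_smul, _root_.sub_apply, _root_.smul_apply,
        smul_eq_mul, hsym]
      field_simp
      ring
    by_cases hu1 : u.1 = 0
    · have hu2 : u.2 ≠ 0 := fun h => hu (Prod.ext hu1 h)
      have hA : Av κ ε (p.1 : E3) u.1 = 0 := by
        rw [hu1, ← AvL_apply, map_zero]
      have hWcr : W = cr y u.2 := by rw [hW, hA, add_zero]
      have hyn : ‖y‖ = 1 := norm_coe p.2
      have hyy : (⟪y, y⟫ : ℝ) = 1 := by rw [real_inner_self_eq_norm_sq, hyn]; norm_num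
      have hWy : (⟪y, W⟫ : ℝ) = 0 := by rw [hWcr, inner_cr_left]
      have hW0 : W ≠ 0 := by
        intro h
        have h3 := norm_cr_sq y u.2
        rw [← hWcr, h, hyy, h2] at h3
        have h4 : (⟪u.2, u.2⟫ : ℝ) = 0 := by simpa using h3.symm
        exact hu2 (inner_self_eq_zero.1 h4)
      have hne : W - ((M y y)⁻¹ * M y W) • y ≠ 0 := by
        intro h
        have h3 : W = ((M y y)⁻¹ * M y W) • y := sub_eq_zero.1 h
        have h4 : (⟪y, W⟫ : ℝ) = (M y y)⁻¹ * M y W := by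
          conv_lhs => rw [h3]
          rw [inner_smul_right, hyy, mul_one]
        rw [hWy] at h4
        rw [← h4, zero_smul] at h3
        exact hW0 h3
      have h5 := hM _ (norm_coe p.1) _ hne
      rw [← hMdef, hproj] at h5
      have h6 : (((sg κ p.1) ^ 2)⁻¹ : ℝ) * ⟪u.1, u.1⟫ = 0 := by simp [hu1]
      rw [h6, zero_add]
      exact h5
    · have h3 : 0 < (((sg κ p.1) ^ 2)⁻¹ : ℝ) * ⟪u.1, u.1⟫ :=
        mul_pos (inv_pos.2 (pow_pos hs 2)) (real_inner_self_pos.2 hu1)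
      have h5 := hM' (W - ((M y y)⁻¹ * M y W) • y)
      rw [hproj] at h5
      linarith

end Pool.Agent.Helper74.HP
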